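import Pool.Agent.Lib.MP_554eee_co.Unique

set_option autoImplicit false

/-!
# MP_554eee_co: an isolated infinite word avoiding a pattern

An explicit pattern with `26` letters, over `10` variables, and an explicit infinite word over an
alphabet with `11` letters which avoids the pattern and is isolated in the set of all infinite words
over this alphabet which avoid the pattern.
-/

namespace Pool.Agent.Results.MP_554eee_co.IsolatedWord

open Pool.Agent.MP554eee

/-- The infinite word `w` over the alphabet `S` encounters the pattern `p` over the alphabet `V` of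
variables: for some nonerasing morphism `h : V* → S*`, the word `h p` is a factor of `w` (it starts
at position `i`). -/
def Encounters {V S : Type} (w : ℕ → S) (p : FreeMonoid V) : Prop :=
  ∃ h : FreeMonoid V →* FreeMonoid S, (∀ x : V, h (FreeMonoid.of x) ≠ 1) ∧
    ∃ i : ℕ, ∀ (j : ℕ) (hj : j < (FreeMonoid.toList (h p)).length),
      w (i + j) = (FreeMonoid.toList (h p))[j]

/-- The set `A_S(p)` of the infinite words over `S` which avoid (do not encounter) the pattern
`p`. -/
def avoiding (S : Type) {V : Type} (p : FreeMonoid V) : Set (ℕ → S) :=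
  {w | ¬ Encounters w p}

/-- The pattern `B B B B M₀ B M₁ B M₂ B M₃ B V B N B X M₀ D M₁ D M₂ D M₃ Y N`; the variables are
`B = 0`, `M₀ = 1`, `M₁ = 2`, `M₂ = 3`, `M₃ = 4`, `V = 5`, `N = 6`, `X = 7`, `D = 8`, `Y = 9`. -/
def pattern : FreeMonoid (Fin 10) :=
  FreeMonoid.ofList
    [0, 0, 0, 0, 1, 0, 2, 0, 3, 0, 4, 0, 5, 0, 6, 0, 7, 1, 8, 2, 8, 3, 8, 4, 9, 6]

theorem encounters_iff_occ {V S : Type} (w : ℕ → S) (p : FreeMonoid V) :
    Encounters w p ↔ ∃ h : V → List S, (∀ x, h x ≠ []) ∧
      ∃ i : ℕ, Occ w i ((FreeMonoid.toList p).flatMap h) := by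
  constructor
  · rintro ⟨h, hne, i, ho⟩
    refine ⟨fun x => FreeMonoid.toList (h (FreeMonoid.of x)), fun x h0 => hne x h0, i, ?_⟩
    have e : (FreeMonoid.toList p).flatMap (fun x => FreeMonoid.toList (h (FreeMonoid.of x))) =
        FreeMonoid.toList (h p) := by
      have h1 := FreeMonoid.lift_restrict h
      have h2 : FreeMonoid.lift (h ∘ FreeMonoid.of) p = h p := by rw [h1]
      rw [← h2, FreeMonoid.lift_apply, FreeMonoid.toList_prod, List.map_map, List.flatMap]
      rfl
    rw [e]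
    intro t ht
    exact ho t ht
  · rintro ⟨h, hne, i, ho⟩
    have e : (FreeMonoid.toList p).flatMap h =
        FreeMonoid.toList (FreeMonoid.lift (fun x => FreeMonoid.ofList (h x)) p) := by
      rw [FreeMonoid.lift_apply, FreeMonoid.toList_prod, List.map_map, List.flatMap]
      rfl
    refine ⟨FreeMonoid.lift (fun x => FreeMonoid.ofList (h x)), fun x h0 => hne x ?_, i, ?_⟩
    · rw [FreeMonoid.lift_eval_of] at h0
      exact h0
    · rw [e] at ho
      intro t ht
      exact ho t ht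

/-- The set of the infinite words which avoid a pattern is closed. -/
theorem isClosed_avoiding (S : Type) [TopologicalSpace S] [DiscreteTopology S] {V : Type}
    (p : FreeMonoid V) : IsClosed (avoiding S p) := by
  rw [← isOpen_compl_iff]
  have e : (avoiding S p)ᶜ = ⋃ h : V → List S, ⋃ _ : ∀ x, h x ≠ [], ⋃ i : ℕ,
      {w : ℕ → S | Occ w i ((FreeMonoid.toList p).flatMap h)} := by
    ext w
    simp only [avoiding, Set.mem_compl_iff, Set.mem_ofPred_eq, not_not, Set.mem_iUnion,
      exists_prop]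
    exact encounters_iff_occ w p
  rw [e]
  refine isOpen_iUnion fun h => isOpen_iUnion fun _ => isOpen_iUnion fun i => ?_
  obtain ⟨l, hl⟩ : ∃ l, l = (FreeMonoid.toList p).flatMap h := ⟨_, rfl⟩
  rw [← hl]
  have e2 : {w : ℕ → S | Occ w i l} = ⋂ t : Fin l.length, {w : ℕ → S | w (i + t) = l[t]} := by
    ext w
    simp only [Set.mem_iInter, Set.mem_ofPred_eq]
    exact ⟨fun hw t => hw t t.2, fun hw t ht => hw ⟨t, ht⟩⟩
  rw [e2]
  refine isOpen_iInter_of_finite fun t => ?_
  have e3 : {w : ℕ → S | w (i + t) = l[t]} = (fun w : ℕ → S => w (i + t)) ⁻¹' {l[t]} := rfl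
  rw [e3]
  exact (isOpen_discrete _).preimage (continuous_apply _)

theorem same_val {w : ℕ → Fin 11} {a b l : ℕ} :
    Same (fun t => (w t).val) a b l ↔ Same w a b l := by
  constructor
  · intro h t ht
    exact Fin.ext (h t ht)
  · intro h t ht
    exact congrArg Fin.val (h t ht)

theorem inst_val {w : ℕ → Fin 11} {i q m0 m1 m2 m3 v n x d y : ℕ} :
    Inst (fun t => (w t).val) i q m0 m1 m2 m3 v n x d y ↔ Inst w i q m0 m1 m2 m3 v n x d y := by
  constructor
  · rintro ⟨h1, h2, h3, h4, h5, h6, h7, h8, h9, h10, b1, b2, b3, b4, b5, b6, b7, b8, b9, c0, c1, c2,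
      c3, e1, e2, f1⟩
    exact ⟨h1, h2, h3, h4, h5, h6, h7, h8, h9, h10, same_val.mp b1, same_val.mp b2, same_val.mp b3,
      same_val.mp b4, same_val.mp b5, same_val.mp b6, same_val.mp b7, same_val.mp b8,
      same_val.mp b9, same_val.mp c0, same_val.mp c1, same_val.mp c2, same_val.mp c3,
      same_val.mp e1, same_val.mp e2, same_val.mp f1⟩
  · rintro ⟨h1, h2, h3, h4, h5, h6, h7, h8, h9, h10, b1, b2, b3, b4, b5, b6, b7, b8, b9, c0, c1, c2,
      c3, e1, e2, f1⟩
    exact ⟨h1, h2, h3, h4, h5, h6, h7, h8, h9, h10, same_val.mpr b1, same_val.mpr b2,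
      same_val.mpr b3, same_val.mpr b4, same_val.mpr b5, same_val.mpr b6, same_val.mpr b7,
      same_val.mpr b8, same_val.mpr b9, same_val.mpr c0, same_val.mpr c1, same_val.mpr c2,
      same_val.mpr c3, same_val.mpr e1, same_val.mpr e2, same_val.mpr f1⟩

theorem mem_avoiding_iff (w : ℕ → Fin 11) :
    w ∈ avoiding (Fin 11) pattern ↔
    ∀ i q m0 m1 m2 m3 v n x d y : ℕ, ¬ Inst (fun t => (w t).val) i q m0 m1 m2 m3 v n x d y := by
  have h0 : Encounters w pattern ↔
      ∃ i q m0 m1 m2 m3 v n x d y : ℕ, Inst w i q m0 m1 m2 m3 v n x d y := by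
    rw [encounters_iff_occ, ← encounters_iff w]
    constructor
    · rintro ⟨h, hne, i, ho⟩
      exact ⟨h, hne, i, _, (ofFn_eq_iff _ _ _ _).mpr ⟨rfl, ho⟩⟩
    · rintro ⟨h, hne, i, n, ho⟩
      exact ⟨h, hne, i, ((ofFn_eq_iff _ _ _ _).mp ho).2⟩
  constructor
  · intro h i q m0 m1 m2 m3 v n x d y H
    exact h (h0.2 ⟨i, q, m0, m1, m2, m3, v, n, x, d, y, inst_val.mp H⟩)
  · intro h he
    obtain ⟨i, q, m0, m1, m2, m3, v, n, x, d, y, H⟩ := h0.1 he
    exact h i q m0 m1 m2 m3 v n x d y (inst_val.mpr H)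

theorem uc_lt_eleven : ∀ t < 172, uc t < 11 := by decide +kernel

theorem fw_lt_eleven (t : ℕ) : fw t < 11 := by
  by_cases h : t < 172
  · rw [fw_lt h]; exact uc_lt_eleven t h
  · have := fw_ge_le (t := t) (by omega)
    omega

/-- **The set of the infinite words over an alphabet with `11` letters which avoid the pattern
`BBBBM₀BM₁BM₂BM₃BVBNBXM₀DM₁DM₂DM₃YN` has an isolated point.**  There is an infinite word `w` which
avoids the pattern, such that `w` is the only infinite word which avoids the pattern and begins with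
the prefix of length `175` of `w`; from position `172` on, `w` is the Toeplitz word `t` with
`t (3 n) = 0`, `t (3 n + 1) = 1`, `t (3 n + 2) = t n`. -/
theorem result :
    ∃ w : ℕ → Fin 11,
      w ∈ avoiding (Fin 11) pattern ∧
      (∀ w' ∈ avoiding (Fin 11) pattern, (∀ t < 175, w' t = w t) → w' = w) ∧
      (∀ n, w (172 + 3 * n) = 0 ∧ w (172 + (3 * n + 1)) = 1 ∧
        w (172 + (3 * n + 2)) = w (172 + n)) ∧
      IsClosed (avoiding (Fin 11) pattern) ∧ ¬ Perfect (avoiding (Fin 11) pattern) := by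
  have hw : (fun t => (⟨fw t, fw_lt_eleven t⟩ : Fin 11)) ∈ avoiding (Fin 11) pattern := by
    rw [mem_avoiding_iff]
    intro i q m0 m1 m2 m3 v n x d y H
    exact fw_avoids (i := i) (q := q) (m0 := m0) (m1 := m1) (m2 := m2) (m3 := m3) (v := v)
      (n := n) (x := x) (d := d) (y := y) H
  have huniq : ∀ w' ∈ avoiding (Fin 11) pattern,
      (∀ t < 175, w' t = (⟨fw t, fw_lt_eleven t⟩ : Fin 11)) →
      w' = fun t => (⟨fw t, fw_lt_eleven t⟩ : Fin 11) := by
    intro y hyS hyU
    have hyS' := (mem_avoiding_iff y).mp hyS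
    funext t
    apply Fin.ext
    exact fw_unique (fun t => (y t).val) (fun t => (y t).isLt)
      (fun t ht => congrArg Fin.val (hyU t ht)) hyS' t
  refine ⟨fun t => ⟨fw t, fw_lt_eleven t⟩, hw, huniq, fun n => ⟨?_, ?_, ?_⟩,
    isClosed_avoiding _ _, fun hperf => ?_⟩
  · apply Fin.ext
    show fw (172 + 3 * n) = 0
    rw [fw_ge, toe_zero]
  · apply Fin.ext
    show fw (172 + (3 * n + 1)) = 1
    rw [fw_ge, toe_one]
  · apply Fin.ext
    show fw (172 + (3 * n + 2)) = fw (172 + n)
    rw [fw_ge, fw_ge, toe_two]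
  · have hacc := hperf.acc _ hw
    rw [accPt_iff_nhds] at hacc
    have hopen : IsOpen {y : ℕ → Fin 11 | ∀ t ∈ Finset.range 175,
        y t = (⟨fw t, fw_lt_eleven t⟩ : Fin 11)} := by
      have : {y : ℕ → Fin 11 | ∀ t ∈ Finset.range 175, y t = (⟨fw t, fw_lt_eleven t⟩ : Fin 11)} =
          ⋂ t ∈ Finset.range 175, {y : ℕ → Fin 11 | y t = (⟨fw t, fw_lt_eleven t⟩ : Fin 11)} := by
        ext y
        simp only [Set.mem_iInter]
        exact Iff.rfl
      rw [this]
      apply isOpen_biInter_finset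
      intro t _
      have hp : {y : ℕ → Fin 11 | y t = (⟨fw t, fw_lt_eleven t⟩ : Fin 11)} =
          (fun y : ℕ → Fin 11 => y t) ⁻¹' ({⟨fw t, fw_lt_eleven t⟩} : Set (Fin 11)) := rfl
      rw [hp]
      exact IsOpen.preimage (continuous_apply t) (isOpen_discrete _)
    obtain ⟨y, ⟨hyU, hyS⟩, hne⟩ := hacc _ (hopen.mem_nhds (fun t _ => rfl))
    exact hne (huniq y hyS fun t ht => hyU t (Finset.mem_range.mpr ht))

end Pool.Agent.Results.MP_554eee_co.IsolatedWord
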